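import Pool.Agent.W922.GY2.Stm

namespace Pool.Agent.W302.GY2

open Filter Topology MeasureTheory Set Pool.Agent.W922.GY2
open scoped Pointwise

theorem s_setup : S_SETUP := by
  intro G _ _ _ _ _ ⟨V, hV, hS⟩
  obtain ⟨C, hC, hCV, hCc⟩ := local_compact_nhds hV
  refine ⟨C ∩ C⁻¹, ⟨hCc.inter_right hCc.inv.isClosed, ?_, ?_, ?_⟩⟩
  · refine inter_mem hC ?_
    have h := inv_mem_nhds_one G hC
    exact h
  · intro g hg
    refine ⟨?_, ?_⟩
    · exact Set.mem_inv.1 hg.2
    · rw [Set.mem_inv, inv_inv]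
      exact hg.1
  · intro g hg
    have h1 : (Subgroup.zpowers g : Set G) ⊆ V := by
      rintro x ⟨k, rfl⟩
      apply hCV
      show g ^ k ∈ C
      obtain ⟨n, rfl | rfl⟩ := k.eq_nat_or_neg
      · rw [zpow_natCast]; exact (hg n).1
      · rw [zpow_neg, zpow_natCast]
        exact Set.mem_inv.1 (hg n).2
    have h2 := hS _ h1
    rwa [Subgroup.zpowers_eq_bot] at h2

end Pool.Agent.W302.GY2
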